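import Pool.Agent.X83.PC.Lc4

/-!
# Montgomery's formula at one height from lower bounds at the same height

No hypothesis is assumed (not RH, nothing about zeros off the line).  Montgomery's formula for all
distances `a ≤ a₀`, with a relative error `ε`, holds at the height `T` as soon as the lower bound of the
formula holds at the same height `T` for distances in finitely many intervals `(a_n, b_n)`, `n < N`, with
an error `C exp (-c (b_n - a_n)) + δ`; here `N` and `δ > 0` depend only on the intervals, `C`, `c`, `ε`
and `a₀`, not on `T`.  The intervals are the first ones of any given sequence of disjoint intervals with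
`∑ ((b_n - a_n) / b_n)² = ∞`; they can all lie beyond any given distance, for instance
`(2ⁿ A, 2ⁿ⁺¹ A)`, and their union can have density zero.  Under the same assumption the number of
simple zeros on the critical line up to height `T` is at least `(1 - ε) T log T / 2π`.

So if the formula fails at some height `T`, at a distance `a ≤ a₀` and by `ε T log T`, then at the same height
there is a deficiency of pairs at a large distance, of at least `δ T log T`.

Method: the number variance of the zeros (unconditional, at the given height) and the lower bounds on one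
long interval force almost all zeros up to `T` onto the critical line, and then Montgomery's theorem holds at
the height `T` for test functions with a small band: the estimate for blocks `(q, 9q/8]` only uses the
number of zeros off the line up to `9q/8`, and the blocks are summed by a recursion along filters of
heights.  A compactness argument, with an ultrafilter of heights, reduces the claim to a theorem of
Beurling type for the limits of the pair measures: a function with a spectral gap that is bounded on one side by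
`C exp (-c (b_n - a_n))` on the intervals `(a_n, b_n)` vanishes.
-/

open Filter Topology

namespace Pool.Agent.Results.MP_f58427_nt.FiniteRangeStability

/-- multiplicity of `s` as a zero of the Riemann zeta function (order of vanishing at `s`) -/
noncomputable def zmult (s : ℂ) : ℕ := analyticOrderNatAt riemannZeta s

/-- the nontrivial zeros of `ζ` -/
def ZZ : Set ℂ := {s : ℂ | riemannZeta s = 0 ∧ 0 < s.re ∧ s.re < 1}

/-- `N*(T, a)` as in the problem: the number of ordered pairs `(γ, γ')` of ordinates of nontrivial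
zeros, counted with multiplicity, with `0 < γ ≤ T` and `0 < γ - γ' ≤ 2πa / log T` -/
noncomputable def Nstar (T a : ℝ) : ℕ :=
  ∑ᶠ p ∈ {p : ℂ × ℂ | p.1 ∈ ZZ ∧ p.2 ∈ ZZ ∧ 0 < p.1.im ∧ p.1.im ≤ T ∧
    0 < p.1.im - p.2.im ∧ p.1.im - p.2.im ≤ 2 * Real.pi * a / Real.log T}, zmult p.1 * zmult p.2

/-- the constant of the conjecture, `(1 / 2π) ∫_0^a (1 - (sin πu / πu) ^ 2) du` -/
noncomputable def M (a : ℝ) : ℝ :=
  1 / (2 * Real.pi) * ∫ u in (0 : ℝ)..a, (1 - (Real.sin (Real.pi * u) / (Real.pi * u)) ^ 2)

/-- the simple zeros on the critical line with ordinate in `(0, T]` -/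
def simpleCritical (T : ℝ) : Set ℂ := {s : ℂ | s ∈ ZZ ∧ s.re = 1 / 2 ∧ 0 < s.im ∧ s.im ≤ T ∧ zmult s = 1}

/-- **Montgomery's formula at one height from lower bounds at the same height.**  Let `(a n, b n)` be
disjoint intervals in increasing order with `∑ ((b n - a n) / b n) ^ 2 = ∞`, let `C` be real, let
`c, ε, a₀ > 0`.  There are `N`, `δ > 0` and `T₀` such that for every `T ≥ T₀`: if
`N*(T, x) ≥ (M(x) - C exp(-c (b n - a n)) - δ) T log T` for all `n < N` and all `x` in `(a n, b n)`, then
`|N*(T, x) - M(x) T log T| ≤ ε T log T` for all `0 < x ≤ a₀`, and at least `(1 - ε) T log T / 2π` zeros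
up to height `T` are simple and lie on the critical line. -/
theorem result (a b : ℕ → ℝ) (ha : ∀ n, 0 < a n) (hab : ∀ n, a n < b n)
    (hd : ∀ n, b n ≤ a (n + 1)) (hdiv : ¬ Summable fun n => ((b n - a n) / b n) ^ 2)
    (C c ε a₀ : ℝ) (hc : 0 < c) (hε : 0 < ε) (ha₀ : 0 < a₀) :
    ∃ (N : ℕ) (δ T₀ : ℝ), 0 < δ ∧ ∀ T : ℝ, T₀ ≤ T →
      (∀ n : ℕ, n < N → ∀ x ∈ Set.Ioo (a n) (b n),
        (M x - C * Real.exp (-(c * (b n - a n))) - δ) * (T * Real.log T) ≤ (Nstar T x : ℝ)) →
      (∀ x : ℝ, 0 < x → x ≤ a₀ →
        |(Nstar T x : ℝ) - M x * (T * Real.log T)| ≤ ε * (T * Real.log T)) ∧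
      (1 - ε) * (T * Real.log T / (2 * Real.pi)) ≤ ((simpleCritical T).ncard : ℝ) := by
  have hpi := Real.pi_pos
  have h2pi : 1 ≤ 2 * Real.pi := by linarith [Real.pi_gt_three]
  obtain ⟨N, δ, T₀, hδ, h⟩ := Pool.Agent.X83.PC.local_main ⟨ha, hab, hd, hdiv⟩
    (2 * Real.pi * C) hc hε ha₀
  refine ⟨N, δ / (2 * Real.pi), max T₀ 10, by positivity, fun T hT hlow => ?_⟩
  have hT10 : 10 ≤ T := (le_max_right _ _).trans hT
  have hn : 0 < Pool.Agent.Y749.Rig.nT T := Pool.Agent.Y749.Rig.nT_pos hT10
  have hlog : 0 < T * Real.log T := mul_pos (by linarith) (Real.log_pos (by linarith))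
  have e1 : T * Real.log T = 2 * Real.pi * Pool.Agent.Y749.Rig.nT T := by
    unfold Pool.Agent.Y749.Rig.nT; field_simp
  have eM : ∀ x : ℝ, 2 * Real.pi * M x = ∫ u in (0 : ℝ)..x, Pool.Agent.Y749.Rig.FF u := by
    intro x
    unfold M Pool.Agent.Y749.Rig.FF
    field_simp
  have eN : ∀ x : ℝ, (Pool.Agent.X83.PC.Nstar T x : ℝ) = (Nstar T x : ℝ) := fun _ => rfl
  obtain ⟨h1, h2⟩ := h T ((le_max_left _ _).trans hT) (fun n hnN x hx => by
    rw [eN]
    refine le_trans (le_of_eq ?_) (hlow n hnN x hx)
    rw [e1, ← eM]
    field_simp)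
  constructor
  · intro x hx0 hx1
    have h3 := h1 x hx0 hx1
    rw [eN, ← eM] at h3
    rw [e1]
    have e2 : M x * (2 * Real.pi * Pool.Agent.Y749.Rig.nT T) =
        2 * Real.pi * M x * Pool.Agent.Y749.Rig.nT T := by ring
    rw [e2]
    refine h3.trans ?_
    have : 0 < ε * Pool.Agent.Y749.Rig.nT T := mul_pos hε hn
    nlinarith
  · have e3 : (simpleCritical T).ncard = H370.Ns riemannZeta 0 T := by
      unfold H370.Ns simpleCritical
      congr 1
      ext s
      constructor
      · rintro ⟨⟨h3, h4, h5⟩, h6, h7, h8, h9⟩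
        exact ⟨⟨h4, h5, h7, h8, h3⟩, h6, h9⟩
      · rintro ⟨⟨h4, h5, h7, h8, h3⟩, h6, h9⟩
        exact ⟨⟨h3, h4, h5⟩, h6, h7, h8, h9⟩
    rw [e3]
    exact h2

end Pool.Agent.Results.MP_f58427_nt.FiniteRangeStability
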