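import Pool.Agent.X83.PC.Sp2

/-!
# Lower bounds for distant pairs decide Montgomery's conjecture, unconditionally

No hypothesis is assumed (not RH, nothing about zeros off the line).  The asymptotic formula of the
problem holds for every `a > 0` if and only if the lower bound of the conjecture, weakened by an
exponentially small term, holds for distances in a sparse set: a union of disjoint intervals
`(a_n, b_n)` with `∑ ((b_n - a_n) / b_n)² = ∞`, for instance `(2ⁿ, 2ⁿ (1 + n ^ (-1/2)))`, whose union
has density zero; the error allowed on `(a_n, b_n)` is `C exp (-c (b_n - a_n))`.  In particular it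
suffices to have the lower bound with an error `C exp (-c a)` for all large `a`.  Nothing is assumed
about upper bounds or about pairs at a small distance.

Method: the number variance of the zeros (unconditional) and the lower bounds on one long interval
force almost all zeros onto the critical line, so that Montgomery's theorem holds for the ordinates,
for test functions with a small band.  Hence every limit of the pair measures differs from the
conjectured measure by an even measure with a spectral gap.  Kernels adapted to the length of the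
interval turn the one-sided bound on `(a_n, b_n)` into an exponentially small mean in its middle, and
a theorem of Beurling type shows that a function with a spectral gap which is that small vanishes.
-/

open Filter Topology

namespace Pool.Agent.Results.MP_f58427_nt.LowerBoundsDecide

/-- multiplicity of `s` as a zero of the Riemann zeta function (order of vanishing at `s`) -/
noncomputable def zmult (s : ℂ) : ℕ := analyticOrderNatAt riemannZeta s

/-- the nontrivial zeros of `ζ` -/
def ZZ : Set ℂ := {s : ℂ | riemannZeta s = 0 ∧ 0 < s.re ∧ s.re < 1}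

/-- `N*(T, a)` as in the problem: the number of ordered pairs `(γ, γ')` of ordinates of nontrivial
zeros, counted with multiplicity, with `0 < γ ≤ T` and `0 < γ - γ' ≤ 2πa / log T` -/
noncomputable def Nstar (T a : ℝ) : ℕ :=
  ∑ᶠ p ∈ {p : ℂ × ℂ | p.1 ∈ ZZ ∧ p.2 ∈ ZZ ∧ 0 < p.1.im ∧ p.1.im ≤ T ∧
    0 < p.1.im - p.2.im ∧ p.1.im - p.2.im ≤ 2 * Real.pi * a / Real.log T}, zmult p.1 * zmult p.2

/-- the constant of the conjecture, `(1 / 2π) ∫_0^a (1 - (sin πu / πu) ^ 2) du` -/
noncomputable def M (a : ℝ) : ℝ :=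
  1 / (2 * Real.pi) * ∫ u in (0 : ℝ)..a, (1 - (Real.sin (Real.pi * u) / (Real.pi * u)) ^ 2)

/-- Montgomery's conjecture, the statement Q1 of the problem -/
def Montgomery : Prop :=
  ∀ a : ℝ, 0 < a → Tendsto (fun T : ℝ => (Nstar T a : ℝ) / (T * Real.log T)) atTop (𝓝 (M a))

/-- the lower bound on the intervals `(a n, b n)` -/
def LowerOn (a b : ℕ → ℝ) : Prop := ∃ C c : ℝ, 0 < c ∧ ∀ n : ℕ, ∀ x ∈ Set.Ioo (a n) (b n),
  ∀ ε : ℝ, 0 < ε → ∃ T₀ : ℝ, ∀ T : ℝ, T₀ ≤ T →
    (M x - C * Real.exp (-(c * (b n - a n))) - ε) * (T * Real.log T) ≤ (Nstar T x : ℝ)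

/-- the lower bound for all large distances -/
def LowerFar : Prop := ∃ C c A : ℝ, 0 < c ∧ ∀ a : ℝ, A ≤ a → ∀ ε : ℝ, 0 < ε →
  ∃ T₀ : ℝ, ∀ T : ℝ, T₀ ≤ T →
    (M a - C * Real.exp (-(c * a)) - ε) * (T * Real.log T) ≤ (Nstar T a : ℝ)

lemma mont_eq : Montgomery ↔ Pool.Agent.X83.PC.Mont := by
  have hpi := Real.pi_pos
  refine forall_congr' fun a => forall_congr' fun ha => ?_
  have e2 : ∀ T : ℝ, (Nstar T a : ℝ) / (T * Real.log T) =
      1 / (2 * Real.pi) * ((Pool.Agent.X83.PC.Nstar T a : ℝ) / Pool.Agent.Y749.Rig.nT T) := by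
    intro T
    have e3 : Nstar T a = Pool.Agent.X83.PC.Nstar T a := rfl
    rw [e3]
    unfold Pool.Agent.Y749.Rig.nT
    rcases eq_or_ne (T * Real.log T) 0 with h | h
    · rw [h]; simp
    · field_simp
  simp_rw [e2]
  have e4 : M a = 1 / (2 * Real.pi) * ∫ u in (0 : ℝ)..a, Pool.Agent.Y749.Rig.FF u := rfl
  rw [e4]
  constructor
  · intro h
    have h2 := h.const_mul (2 * Real.pi)
    have e5 : ∀ x : ℝ, 2 * Real.pi * (1 / (2 * Real.pi) * x) = x := by
      intro x; field_simp
    simp_rw [e5] at h2
    exact h2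
  · intro h
    exact h.const_mul _

/-- **Lower bounds for distant pairs decide Montgomery's conjecture.**
* for disjoint intervals `(a n, b n)` in increasing order with `∑ ((b n - a n) / b n) ^ 2 = ∞`, the
  conjecture holds if and only if there are `C` and `c > 0` such that
  `N*(T, x) ≥ (M(x) - C exp(-c (b n - a n)) - ε) T log T` for every `n`, every `x` in `(a n, b n)`,
  every `ε > 0` and all large `T`;
* it holds if and only if there are `C`, `A` and `c > 0` such that
  `N*(T, a) ≥ (M(a) - C exp(-c a) - ε) T log T` for every `a ≥ A`, every `ε > 0` and all large `T`. -/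
theorem result :
    (∀ a b : ℕ → ℝ, (∀ n, 0 < a n) → (∀ n, a n < b n) → (∀ n, b n ≤ a (n + 1)) →
      (¬ Summable fun n => ((b n - a n) / b n) ^ 2) → (Montgomery ↔ LowerOn a b)) ∧
    (Montgomery ↔ LowerFar) := by
  have hpi := Real.pi_pos
  constructor
  · intro a b ha hab hd hdiv
    rw [mont_eq, Pool.Agent.X83.PC.mont_iff_splow ⟨ha, hab, hd, hdiv⟩]
    constructor
    · rintro ⟨C, c, hc, h⟩
      refine ⟨1 / (2 * Real.pi) * C, c, hc, fun n x hx ε hε => ?_⟩
      obtain ⟨T₀, hT₀⟩ := (h n x hx (2 * Real.pi * ε) (by positivity)).exists_forall_of_atTop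
      refine ⟨T₀, fun T hT => le_trans (le_of_eq ?_) (hT₀ T hT)⟩
      unfold M Pool.Agent.Y749.Rig.nT Pool.Agent.Y749.Rig.FF
      field_simp
    · rintro ⟨C, c, hc, h⟩
      refine ⟨2 * Real.pi * C, c, hc, fun n x hx ε hε => ?_⟩
      obtain ⟨T₀, hT₀⟩ := h n x hx (1 / (2 * Real.pi) * ε) (by positivity)
      filter_upwards [eventually_ge_atTop T₀] with T hT
      refine le_trans (le_of_eq ?_) (hT₀ T hT)
      unfold M Pool.Agent.Y749.Rig.nT Pool.Agent.Y749.Rig.FF
      field_simp
  · rw [mont_eq, Pool.Agent.X83.PC.mont_iff_lower]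
    constructor
    · rintro ⟨C, c, A, hc, h⟩
      refine ⟨1 / (2 * Real.pi) * C, c, A, hc, fun a ha ε hε => ?_⟩
      obtain ⟨T₀, hT₀⟩ := (h a ha (2 * Real.pi * ε) (by positivity)).exists_forall_of_atTop
      refine ⟨T₀, fun T hT => le_trans (le_of_eq ?_) (hT₀ T hT)⟩
      unfold M Pool.Agent.Y749.Rig.nT Pool.Agent.Y749.Rig.FF
      field_simp
    · rintro ⟨C, c, A, hc, h⟩
      refine ⟨2 * Real.pi * C, c, A, hc, fun a ha ε hε => ?_⟩
      obtain ⟨T₀, hT₀⟩ := h a ha (1 / (2 * Real.pi) * ε) (by positivity)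
      filter_upwards [eventually_ge_atTop T₀] with T hT
      refine le_trans (le_of_eq ?_) (hT₀ T hT)
      unfold M Pool.Agent.Y749.Rig.nT Pool.Agent.Y749.Rig.FF
      field_simp

end Pool.Agent.Results.MP_f58427_nt.LowerBoundsDecide
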