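import Pool.Agent.X83.PC.Simp
import Pool.Agent.Results.MP_6bc78b_nt.SimpleZerosOfZ

/-!
# The mean of the pair counts over long intervals of distances

Everything here is unconditional.  Let `n(T) = T log T / 2π` (the number of zeros up to height `T`,
asymptotically) and let `N*(T, x)` be the counting function of the problem: the number of pairs of zeros
whose ordinates `γ`, `γ'` satisfy `0 < γ ≤ T` and `0 < γ - γ' ≤ 2πx / log T`.  Montgomery's conjecture says
that the deficiency `x - N*(T, x) / n(T)` tends to `x - 2π M(x) = 1/2 + O(1/x)` for every `x > 0`.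

Let `D(T)` be the number of pairs of nontrivial zeros with equal ordinates in `(0, T]` (counted with
multiplicity; a zero of multiplicity `m` contributes at least `m²`, a zero off the line also pairs with
its reflection).  The mean of the deficiency over an interval `(p, q)` of distances determines
`D(T) / n(T)` up to `O((1 + log q) / (q - p))`, uniformly, and gives a lower bound for the number of
simple zeros of Hardy's function: if it is at most `1/2 + δ` then all but
`(2 δ + O((1 + log q)/(q - p))) n(T)` of the nontrivial zeros of zeta are simple zeros of Hardy's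
function.  The mean deficiency tends to the value `1/2` of the conjecture if and only if `D(T) ~ n(T)`,
and then all zeros of zeta outside a set of density zero are simple and on the critical line.

Method: the second moment of the number of zeros in `(t, t + 2πa / log T)` is `a² + O(1 + log a)` times
`T`, unconditionally and uniformly for `a² ≤ log T`; it is also the integral over `(0, a)` of the pair
counts, up to pairs with equal ordinates.
-/

open Filter Topology Complex

namespace Pool.Agent.Results.MP_f58427_nt.MeanDeficiency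

/-- the phase `exp (i ϑ(t))`, with `ϑ(t) = arg Γ(1/4 + i t / 2) - (t / 2) log π` -/
noncomputable def phase (t : ℝ) : ℂ :=
  Gamma (1 / 4 + I * t / 2) / ‖Gamma (1 / 4 + I * t / 2)‖ * cexp (-(I * (t / 2) * Real.log Real.pi))

/-- Hardy's function `Z(t) = exp (i ϑ(t)) ζ(1/2 + i t)` -/
noncomputable def Z (t : ℝ) : ℂ := phase t * riemannZeta (1 / 2 + I * t)

/-- the simple real zeros of `Z` in `(0, T]` -/
def simpleZeros (T : ℝ) : Set ℝ := {t : ℝ | 0 < t ∧ t ≤ T ∧ Z t = 0 ∧ deriv Z t ≠ 0}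

/-- multiplicity of `s` as a zero of the Riemann zeta function (order of vanishing at `s`) -/
noncomputable def zmult (s : ℂ) : ℕ := analyticOrderNatAt riemannZeta s

/-- the nontrivial zeros of `ζ` -/
def ZZ : Set ℂ := {s : ℂ | riemannZeta s = 0 ∧ 0 < s.re ∧ s.re < 1}

/-- `n(T) = T log T / 2π`, asymptotic to the number of nontrivial zeros with ordinate in `(0, T]` -/
noncomputable def n (T : ℝ) : ℝ := T * Real.log T / (2 * Real.pi)

/-- the number of ordered pairs of nontrivial zeros, counted with multiplicity, with the same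
ordinate, which lies in `(0, T]` (the pairs `(ρ, ρ)` are included) -/
noncomputable def D (T : ℝ) : ℕ :=
  ∑ᶠ p ∈ {p : ℂ × ℂ | p.1 ∈ ZZ ∧ p.2 ∈ ZZ ∧ 0 < p.1.im ∧ p.1.im ≤ T ∧ p.1.im = p.2.im},
    zmult p.1 * zmult p.2

/-- `N*(T, x)`: the number of ordered pairs of nontrivial zeros, counted with multiplicity, whose
ordinates `γ`, `γ'` satisfy `0 < γ ≤ T` and `0 < γ - γ' ≤ 2πx / log T` -/
noncomputable def Nstar (T x : ℝ) : ℕ :=
  ∑ᶠ p ∈ {p : ℂ × ℂ | p.1 ∈ ZZ ∧ p.2 ∈ ZZ ∧ 0 < p.1.im ∧ p.1.im ≤ T ∧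
    0 < p.1.im - p.2.im ∧ p.1.im - p.2.im ≤ 2 * Real.pi * x / Real.log T}, zmult p.1 * zmult p.2

/-- the integral of the deficiency `x - N*(T, x) / n(T)` over the distances `p < x < q` -/
noncomputable def defi (T p q : ℝ) : ℝ := ∫ x in p..q, (x - (Nstar T x : ℝ) / n T)

lemma defi_eq {T : ℝ} (hT : 10 ≤ T) (p q : ℝ) : n T * defi T p q =
    (q ^ 2 - p ^ 2) / 2 * n T - ∫ x in p..q, (Nstar T x : ℝ) := by
  have hn : n T ≠ 0 := (Pool.Agent.Y749.Rig.nT_pos hT).ne'
  unfold defi
  have h1 := Pool.Agent.X83.PC.Nstar_ii T (by linarith) p q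
  have h2 : ∫ x in p..q, (x - (Nstar T x : ℝ) / n T) =
      (∫ x in p..q, x) - ∫ x in p..q, (Nstar T x : ℝ) / n T :=
    intervalIntegral.integral_sub (by simp) (h1.div_const _)
  rw [h2, integral_id, intervalIntegral.integral_div]
  field_simp

lemma Z_eq (t : ℝ) : Z t = Pool.Agent.Results.MP_6bc78b_nt.SimpleZerosOfZ.Z t := rfl

lemma simple_card (T : ℝ) : ((simpleZeros T).ncard : ℝ) ≤ (H370.NN riemannZeta 0 T : ℝ) := by
  classical
  have h1 : (simpleZeros T).ncard ≤ (H370.zset riemannZeta 0 T).ncard := by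
    refine Set.ncard_le_ncard_of_injOn (fun t : ℝ => (1 / 2 + I * t : ℂ)) ?_ ?_
      (H370.zeta_zeros_finite T)
    · rintro t ⟨h1, h2, h3, h4⟩
      refine ⟨?_, ?_, ?_, ?_, (Pool.Agent.Results.MP_6bc78b_nt.SimpleZerosOfZ.Z_zero_iff t).mp h3⟩ <;> simp <;>
        first | assumption | norm_num
    · intro a _ b _ hab
      have := congrArg Complex.im hab
      simpa using this
  have h2 : (H370.zset riemannZeta 0 T).ncard ≤ H370.NN riemannZeta 0 T := by
    unfold H370.NN
    rw [finsum_mem_eq_finite_toFinset_sum _ (H370.zeta_zeros_finite T),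
      Set.ncard_eq_toFinset_card _ (H370.zeta_zeros_finite T), Finset.card_eq_sum_ones]
    refine Finset.sum_le_sum fun s hs => ?_
    rw [Set.Finite.mem_toFinset] at hs
    exact H370.Loc.mult_pos' H370.good_zeta hs.2.2.1 hs.2.2.2.2
  exact_mod_cast h1.trans h2

/-- the mean over `(p, q)` of the deficiency is at most `1/2 + ε` for some interval of distances that is
long compared with `log q` -/
def Weak : Prop := ∀ ε : ℝ, 0 < ε → ∃ p q : ℝ, 0 ≤ p ∧ p < q ∧ Real.log (2 + q) ≤ ε * (q - p) ∧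
  ∃ T₀ : ℝ, ∀ T : ℝ, T₀ ≤ T → defi T p q / (q - p) ≤ 1 / 2 + ε

/-- the mean over `(0, a)` of the deficiency is close to `1/2` for large `a` and `T ≥ T₀(a)` -/
def Strong : Prop := ∀ ε : ℝ, 0 < ε → ∃ A : ℝ, 0 < A ∧ ∀ a : ℝ, A ≤ a →
  ∃ T₀ : ℝ, ∀ T : ℝ, T₀ ≤ T → |defi T 0 a / a - 1 / 2| ≤ ε

lemma one : ∃ C T₀ : ℝ, 0 < C ∧ 10 ≤ T₀ ∧ ∀ T : ℝ, T₀ ≤ T → ∀ p q : ℝ, 0 ≤ p → p < q →
    q ^ 2 ≤ Real.log T →
    |2 * defi T p q - (q - p) * ((D T : ℝ) / n T)| ≤ Real.log (1 + q) / Real.pi ^ 2 + C := by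
  obtain ⟨C, T0, hC, hT0, hm⟩ := Pool.Agent.X83.PC.mean_both
  refine ⟨C, T0, by linarith, by linarith, fun T hT p q hp hpq hq => ?_⟩
  have hn : 0 < n T := Pool.Agent.Y749.Rig.nT_pos (by linarith)
  have h1 := hm T hT p q hp hpq hq
  have h2 := defi_eq (show 10 ≤ T by linarith) p q
  have e0 : (Pool.Agent.X83.PC.DS 0 T : ℝ) = (D T : ℝ) := rfl
  have e1 : ∀ x, (Pool.Agent.X83.PC.Nstar T x : ℝ) = (Nstar T x : ℝ) := fun _ => rfl
  have e2 : Pool.Agent.Y749.Rig.nT T = n T := rfl
  rw [e0, e2] at h1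
  simp_rw [e1] at h1
  have h3 : (q - p) * (D T : ℝ) + 2 * (∫ x in p..q, (Nstar T x : ℝ)) - (q ^ 2 - p ^ 2) * n T =
      -(n T * (2 * defi T p q - (q - p) * ((D T : ℝ) / n T))) := by
    have h4 : n T * ((q - p) * ((D T : ℝ) / n T)) = (q - p) * (D T : ℝ) := by field_simp
    rw [mul_sub, h4]
    linarith
  rw [h3, abs_neg, abs_mul, abs_of_pos hn] at h1
  exact le_of_mul_le_mul_left (by linarith) hn

lemma strong_iff : Tendsto (fun T => (D T : ℝ) / n T) atTop (𝓝 1) ↔ Strong := by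
  have h0 := Pool.Agent.X83.PC.diag_iff
  have key : ∀ a T : ℝ, 0 < a → 10 ≤ T →
      |1 / a * (∫ x in (0:ℝ)..a, (Pool.Agent.X83.PC.Nstar T x : ℝ)) / Pool.Agent.Y749.Rig.nT T -
        (a - 1) / 2| = |defi T 0 a / a - 1 / 2| := by
    intro a T ha hT
    have hn : 0 < n T := Pool.Agent.Y749.Rig.nT_pos (by linarith)
    have h2 := defi_eq hT 0 a
    have e2 : Pool.Agent.Y749.Rig.nT T = n T := rfl
    have e1 : ∀ x, (Pool.Agent.X83.PC.Nstar T x : ℝ) = (Nstar T x : ℝ) := fun _ => rfl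
    rw [e2]
    simp_rw [e1]
    have h3 : (∫ x in (0:ℝ)..a, (Nstar T x : ℝ)) = (a ^ 2 / 2) * n T - n T * defi T 0 a := by
      rw [h2]; ring
    rw [h3]
    have h4 : 1 / a * (a ^ 2 / 2 * n T - n T * defi T 0 a) / n T - (a - 1) / 2 =
        -(defi T 0 a / a - 1 / 2) := by
      field_simp
      ring
    rw [h4, abs_neg]
  have h1 : Tendsto (fun T => (Pool.Agent.X83.PC.DS 0 T : ℝ) / Pool.Agent.Y749.Rig.nT T) atTop
      (𝓝 1) ↔ Tendsto (fun T => (D T : ℝ) / n T) atTop (𝓝 1) := Iff.rfl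
  rw [← h1, h0]
  constructor
  · intro h ε hε
    obtain ⟨A, hA⟩ := h ε hε
    refine ⟨max A 1, lt_of_lt_of_le one_pos (le_max_right _ _), fun a ha => ?_⟩
    have ha1 : 0 < a := lt_of_lt_of_le one_pos ((le_max_right _ _).trans ha)
    obtain ⟨T₀, hT₀⟩ := (hA a ((le_max_left _ _).trans ha)).exists_forall_of_atTop
    refine ⟨max T₀ 10, fun T hT => ?_⟩
    rw [← key a T ha1 ((le_max_right _ _).trans hT)]
    exact hT₀ T ((le_max_left _ _).trans hT)
  · intro h ε hε
    obtain ⟨A, hA0, hA⟩ := h ε hε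
    refine ⟨A, fun a ha => ?_⟩
    obtain ⟨T₀, hT₀⟩ := hA a ha
    filter_upwards [eventually_ge_atTop T₀, eventually_ge_atTop 10] with T h2 h3
    rw [key a T (by linarith) h3]
    exact hT₀ T h2

lemma weak_of_strong (h : Strong) : Weak := by
  intro ε hε
  obtain ⟨A, hA0, hA⟩ := h ε hε
  have h1 : Tendsto (fun a : ℝ => (Real.log (1 + (1 + a)) / Real.pi ^ 2 + 0) / (1 + a)) atTop
      (𝓝 0) := (Pool.Agent.X83.PC.log_lim 0).comp (tendsto_atTop_add_const_left _ _ tendsto_id)
  have hpi := Real.pi_pos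
  obtain ⟨a, ha1, ha2⟩ := ((eventually_ge_atTop (max A 1)).and
    (h1.eventually (ge_mem_nhds (show 0 < ε / (2 * Real.pi ^ 2) by positivity)))).exists
  have ha3 : 1 ≤ a := (le_max_right _ _).trans ha1
  have ha : 0 < a := by linarith
  obtain ⟨T₀, hT₀⟩ := hA a ((le_max_left _ _).trans ha1)
  refine ⟨0, a, le_rfl, ha, ?_, T₀, fun T hT => ?_⟩
  · rw [div_le_iff₀ (by linarith), add_zero, div_le_iff₀ (by positivity)] at ha2
    have e1 : 1 + (1 + a) = 2 + a := by ring
    have e2 : ε / (2 * Real.pi ^ 2) * (1 + a) * Real.pi ^ 2 = ε / 2 * (1 + a) := by field_simp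
    rw [e1, e2] at ha2
    nlinarith
  · have h2 := (abs_le.1 (hT₀ T hT)).2
    rw [sub_zero]
    linarith

lemma D_low (ε : ℝ) (hε : 0 < ε) : ∀ᶠ T : ℝ in atTop, 1 - ε ≤ (D T : ℝ) / n T := by
  obtain ⟨K2, hK2, hlow⟩ := Pool.Agent.X83.PC.DS_low
  have hlim : Tendsto (fun T : ℝ => ε / 2 * n T) atTop atTop := by
    have h1 : Tendsto (fun T : ℝ => T * Real.log T) atTop atTop :=
      tendsto_id.atTop_mul_atTop₀ Real.tendsto_log_atTop
    have h2 : (fun T : ℝ => ε / 2 * n T) = fun T => ε / 2 / (2 * Real.pi) * (T * Real.log T) := by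
      funext T
      unfold n
      ring
    rw [h2]
    have := Real.pi_pos
    exact h1.const_mul_atTop (by positivity)
  filter_upwards [Pool.Agent.X83.PC.N_low (half_pos hε), hlim.eventually_ge_atTop K2,
    eventually_ge_atTop 10] with T h1 h2 h3
  have hn : 0 < n T := Pool.Agent.Y749.Rig.nT_pos h3
  have h4 := hlow T
  have h5 : 0 ≤ Pool.Agent.Y749.Rig.NF T :=
    Finset.sum_nonneg fun s _ => Pool.Agent.Y749.Rig.mm_nonneg s
  have e0 : (Pool.Agent.X83.PC.DS 0 T : ℝ) = (D T : ℝ) := rfl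
  have e2 : Pool.Agent.Y749.Rig.nT T = n T := rfl
  rw [e0] at h4
  rw [e2] at h1
  rw [le_div_iff₀ hn]
  nlinarith

lemma of_weak (h : Weak) : Tendsto (fun T => (D T : ℝ) / n T) atTop (𝓝 1) := by
  obtain ⟨C, T1, hC, hT1, hone⟩ := one
  have hpi := Real.pi_pos
  have hl2 : 0 < Real.log 2 := Real.log_pos (by norm_num)
  rw [Metric.tendsto_nhds]
  intro ε hε
  obtain ⟨B, hB⟩ : ∃ B : ℝ, B = 2 + 1 / Real.pi ^ 2 + C / Real.log 2 := ⟨_, rfl⟩
  have hB0 : 0 < B := by rw [hB]; positivity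
  obtain ⟨p, q, hp, hpq, hlog, T₀, hT₀⟩ := h (ε / (2 * B)) (by positivity)
  have hqp : 0 < q - p := by linarith
  filter_upwards [eventually_ge_atTop T₀, eventually_ge_atTop T1,
    Real.tendsto_log_atTop.eventually_ge_atTop (q ^ 2), D_low (ε / 2) (by positivity)]
    with T h1 h2 h3 h4
  have h5 := (abs_le.1 (hone T h2 p q hp hpq h3)).1
  have h6 := hT₀ T h1
  rw [div_le_iff₀ hqp] at h6
  have h7 : Real.log (1 + q) ≤ Real.log (2 + q) := Real.log_le_log (by linarith) (by linarith)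
  have h8 : Real.log 2 ≤ Real.log (2 + q) := Real.log_le_log (by norm_num) (by linarith)
  have h9 : Real.log (1 + q) / Real.pi ^ 2 ≤ 1 / Real.pi ^ 2 * Real.log (2 + q) := by
    rw [div_eq_mul_one_div, mul_comm]
    exact mul_le_mul_of_nonneg_left h7 (by positivity)
  have h10 : C ≤ C / Real.log 2 * Real.log (2 + q) := by
    rw [div_mul_eq_mul_div, le_div_iff₀ hl2]
    exact mul_le_mul_of_nonneg_left h8 hC.le
  have h11 : Real.log (1 + q) / Real.pi ^ 2 + C ≤ (B - 2) * (ε / (2 * B) * (q - p)) := by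
    have : Real.log (1 + q) / Real.pi ^ 2 + C ≤ (B - 2) * Real.log (2 + q) := by
      rw [hB]; linarith
    exact this.trans (mul_le_mul_of_nonneg_left hlog (by
      have : 0 < C / Real.log 2 := by positivity
      have : 0 < 1 / Real.pi ^ 2 := by positivity
      rw [hB]; linarith))
  have h12 : (q - p) * ((D T : ℝ) / n T) ≤ (q - p) * (1 + ε / 2) := by
    have e : 2 * ((1 / 2 + ε / (2 * B)) * (q - p)) + (B - 2) * (ε / (2 * B) * (q - p)) =
        (q - p) * (1 + ε / 2) := by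
      field_simp
      ring
    linarith
  have h13 := le_of_mul_le_mul_left h12 hqp
  rw [Real.dist_eq, abs_lt]
  constructor <;> linarith

/-- **Simple zeros and the mean deficiency of the pair counts.**  Unconditionally:
* (1) there are `C`, `T₀` such that for `T ≥ T₀` and `0 ≤ p < q ≤ √(log T)` twice the integral over
  `(p, q)` of the deficiency `x - N*(T, x) / n(T)` differs from `(q - p) D(T) / n(T)` by at most
  `log(1 + q) / π² + C`;
* (2) there is `C` such that for `0 ≤ p < q` and all large `T`, with `μ` the mean over `(p, q)` of the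
  deficiency, the number of simple real zeros of `Z` in `(0, T]` is at least
  `(2 - 2 μ - (log(1 + q)/π² + C) / (q - p)) n(T)`;
* (3) `D(T) ~ n(T)` if and only if for every `ε > 0` the mean over some interval `(p, q)` of distances with
  `log(2 + q) ≤ ε (q - p)` of the deficiency is at most `1/2 + ε` for all large `T`, and if and only if
  the mean over `(0, a)` is within `ε` of `1/2` for all large `a` and `T ≥ T₀(a)`;
* (4) if `D(T) ~ n(T)` then the number of simple real zeros of `Z` in `(0, T]` is asymptotic to `n(T)`. -/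
theorem result :
    (∃ C T₀ : ℝ, ∀ T : ℝ, T₀ ≤ T → ∀ p q : ℝ, 0 ≤ p → p < q → q ^ 2 ≤ Real.log T →
      |2 * defi T p q - (q - p) * ((D T : ℝ) / n T)| ≤ Real.log (1 + q) / Real.pi ^ 2 + C) ∧
    (∃ C : ℝ, ∀ p q : ℝ, 0 ≤ p → p < q → ∃ T₀ : ℝ, ∀ T : ℝ, T₀ ≤ T →
      (2 - 2 * (defi T p q / (q - p)) - (Real.log (1 + q) / Real.pi ^ 2 + C) / (q - p)) * n T ≤
        ((simpleZeros T).ncard : ℝ)) ∧
    (Tendsto (fun T => (D T : ℝ) / n T) atTop (𝓝 1) ↔ Weak) ∧
    (Tendsto (fun T => (D T : ℝ) / n T) atTop (𝓝 1) ↔ Strong) ∧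
    (Tendsto (fun T => (D T : ℝ) / n T) atTop (𝓝 1) →
      Tendsto (fun T => ((simpleZeros T).ncard : ℝ) / n T) atTop (𝓝 1)) := by
  refine ⟨?_, ?_, ⟨fun h => weak_of_strong (strong_iff.1 h), of_weak⟩, strong_iff, ?_⟩
  · obtain ⟨C, T₀, hC, hT₀, h⟩ := one
    exact ⟨C, T₀, h⟩
  · obtain ⟨C, hC, h⟩ := Pool.Agent.X83.PC.simple_pairs
    refine ⟨C, fun p q hp hpq => ?_⟩
    obtain ⟨T₀, hT₀⟩ := (h p q hp hpq).exists_forall_of_atTop
    refine ⟨max T₀ 10, fun T hT => ?_⟩
    have h1 := hT₀ T ((le_max_left _ _).trans hT)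
    have hT10 : 10 ≤ T := (le_max_right _ _).trans hT
    have hn : 0 < n T := Pool.Agent.Y749.Rig.nT_pos hT10
    have h2 : (H370.Ns riemannZeta 0 T : ℝ) ≤ ((simpleZeros T).ncard : ℝ) := by
      exact_mod_cast Pool.Agent.Results.MP_6bc78b_nt.SimpleZerosOfZ.Ns_le T
    refine le_trans (le_of_eq ?_) (h1.trans h2)
    have h3 := defi_eq hT10 p q
    have e1 : ∀ x, (Pool.Agent.X83.PC.Nstar T x : ℝ) = (Nstar T x : ℝ) := fun _ => rfl
    have e2 : Pool.Agent.Y749.Rig.nT T = n T := rfl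
    simp_rw [e1, e2]
    have h4 : (∫ x in p..q, (Nstar T x : ℝ)) = (q ^ 2 - p ^ 2) / 2 * n T - n T * defi T p q := by
      rw [h3]; ring
    rw [h4]
    have hqp : q - p ≠ 0 := by
      have : 0 < q - p := by linarith
      exact this.ne'
    field_simp
    ring
  · intro h
    have h1 := Pool.Agent.X83.PC.simple_of_diag h
    obtain ⟨K, hK⟩ : ∃ K : ℝ → ℝ, K = fun T => (H370.Ns riemannZeta 0 T : ℝ) /
      Pool.Agent.Y749.Rig.nT T := ⟨_, rfl⟩
    have h2 : Tendsto (fun T => (H370.NN riemannZeta 0 T : ℝ) / n T) atTop (𝓝 1) := by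
      rw [Metric.tendsto_nhds]
      intro ε hε
      obtain ⟨T1, hT1, hN⟩ := Pool.Agent.W54.TCF.NT_asymp' (ε / 2) (by positivity)
      filter_upwards [eventually_ge_atTop T1, eventually_ge_atTop 10] with T h3 h4
      have hn : 0 < n T := Pool.Agent.Y749.Rig.nT_pos h4
      have h5 := hN T h3
      have e : ∀ x : ℝ, x * (T / (2 * Real.pi) * Real.log T) = x * n T := by
        intro x
        unfold n; ring
      rw [e, e] at h5
      rw [Real.dist_eq, abs_lt]
      constructor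
      · have : 1 - ε < (H370.NN riemannZeta 0 T : ℝ) / n T := by
          rw [lt_div_iff₀ hn]; nlinarith [h5.1]
        linarith
      · have : (H370.NN riemannZeta 0 T : ℝ) / n T < 1 + ε := by
          rw [div_lt_iff₀ hn]; nlinarith [h5.2]
        linarith
    refine tendsto_of_tendsto_of_tendsto_of_le_of_le' h1 h2 ?_ ?_
    · filter_upwards [eventually_ge_atTop 10] with T hT
      have hn : 0 < n T := Pool.Agent.Y749.Rig.nT_pos hT
      have e2 : Pool.Agent.Y749.Rig.nT T = n T := rfl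
      rw [e2]
      have h2 : (H370.Ns riemannZeta 0 T : ℝ) ≤ ((simpleZeros T).ncard : ℝ) := by
        exact_mod_cast Pool.Agent.Results.MP_6bc78b_nt.SimpleZerosOfZ.Ns_le T
      gcongr
    · filter_upwards [eventually_ge_atTop 10] with T hT
      have hn : 0 < n T := Pool.Agent.Y749.Rig.nT_pos hT
      have h2 := simple_card T
      gcongr

end Pool.Agent.Results.MP_f58427_nt.MeanDeficiency
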