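import Pool.Agent.X113.PC2

namespace Pool.Agent.Results.MP_f58427_nt.PairCountBoundedError

/-- multiplicity of `s` as a zero of the Riemann zeta function (order of vanishing at `s`) -/
noncomputable def zmult (s : ℂ) : ℕ := analyticOrderNatAt riemannZeta s

/-- the nontrivial zeros of `ζ` -/
def ZZ : Set ℂ := {s : ℂ | riemannZeta s = 0 ∧ 0 < s.re ∧ s.re < 1}

/-- `N*(T, a)` as in the problem: the number of ordered pairs `(γ, γ')` of ordinates of nontrivial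
zeros, counted with multiplicity, with `0 < γ ≤ T` and `0 < γ - γ' ≤ 2πa / log T` -/
noncomputable def Nstar (T a : ℝ) : ℕ :=
  ∑ᶠ p ∈ {p : ℂ × ℂ | p.1 ∈ ZZ ∧ p.2 ∈ ZZ ∧ 0 < p.1.im ∧ p.1.im ≤ T ∧
    0 < p.1.im - p.2.im ∧ p.1.im - p.2.im ≤ 2 * Real.pi * a / Real.log T}, zmult p.1 * zmult p.2

/-- Unconditionally, `N*(T, a) = (a + O(1)) (T / 2π) log T`, uniformly in the range
`a log a ≤ B log T`. -/
theorem result : ∀ B : ℝ, 1 ≤ B → ∃ C T0 : ℝ, ∀ T : ℝ, T0 ≤ T → ∀ a : ℝ, 0 < a →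
    a * Real.log a ≤ B * Real.log T →
    |(Nstar T a : ℝ) - a * (T * Real.log T / (2 * Real.pi))| ≤ C * (T * Real.log T) := by
  intro B hB
  obtain ⟨C, T0, -, -, h⟩ := Pool.Agent.X113.PC.main_a B hB
  exact ⟨C, T0, fun T hT a ha haL => h T hT a ha haL⟩

end Pool.Agent.Results.MP_f58427_nt.PairCountBoundedError
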